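import Pool.Agent.Work.MP_725bd9_nt.Core

/-!
# No `{p, q}`-Diophantine quadruples

For every pair of distinct primes `p`, `q` (no Wieferich hypothesis) there are no four distinct
positive integers whose pairwise products plus one have no prime factor outside `{p, q}`.
-/

set_option autoImplicit false

namespace Pool.Agent.Results.MP_725bd9_nt.NoQuadruple

/-- For all primes `p < q`, there do not exist positive integers `a < b < c < d` such that every
prime dividing `x * y + 1`, for distinct `x, y` among them, is `p` or `q`. -/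
theorem result (p q : ℕ) (hp : p.Prime) (hq : q.Prime) (hpq : p < q) :
    ¬ ∃ a b c d : ℕ, 0 < a ∧ a < b ∧ b < c ∧ c < d ∧
      ∀ x ∈ ({a, b, c, d} : Finset ℕ), ∀ y ∈ ({a, b, c, d} : Finset ℕ), x ≠ y →
        ∀ r : ℕ, r.Prime → r ∣ x * y + 1 → r = p ∨ r = q := by
  rintro ⟨a, b, c, d, ha, hab, hbc, hcd, h⟩
  refine Pool.Agent.SDioph.no_quadruple_nat hp hq hpq.ne ha hab hbc hcd ?_
  intro x hx y hy hxy
  have key : ∀ n : ℕ, n ≠ 0 → (∀ r : ℕ, r.Prime → r ∣ n → r = p ∨ r = q) →
      ∃ i j : ℕ, n = p ^ i * q ^ j := by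
    intro n
    induction n using Nat.strong_induction_on with
    | _ n ih =>
      intro hn hr
      by_cases h1 : n = 1
      · exact ⟨0, 0, by simpa using h1⟩
      obtain ⟨r, hrp, m, rfl⟩ := Nat.exists_prime_and_dvd h1
      have hm : m ≠ 0 := by rintro rfl; simp at hn
      have hlt : m < r * m := by
        have := hrp.two_le
        have := Nat.pos_of_ne_zero hm
        nlinarith
      obtain ⟨i, j, hij⟩ := ih m hlt hm fun s hs hsm => hr s hs (hsm.mul_left r)
      rcases hr r hrp (Dvd.intro m rfl) with rfl | rfl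
      · exact ⟨i + 1, j, by rw [hij, pow_succ]; ring⟩
      · exact ⟨i, j + 1, by rw [hij, pow_succ]; ring⟩
  exact key _ (Nat.succ_ne_zero _) (h x hx y hy hxy)

end Pool.Agent.Results.MP_725bd9_nt.NoQuadruple
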